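import Pool.Agent.Helper64.DT.Stmts

/-! Module TLB: the position of the new tail. -/

set_option autoImplicit false

namespace Pool.Agent.Helper64.DT

open Pool.Agent.Helper64.CT
open Pool.Agent.Helper64.HG (Ovl Model Circ IC HellyCircle ChordModel)

theorem tlb_far_symm {V : Type} {G : SimpleGraph V} {y y' : V} (h : y' ∈ Far G y) :
    y ∈ Far G y' := ⟨fun e => h.1 e.symm, fun ha => h.2 ha.symm⟩

theorem tlb_bm_iff {V : Type} {l r : V → ℝ} {w : V → Bool} {y x : V} :
    bm l r w y x = w y ↔ InP l r y (tl l r w x) := by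
  classical
  unfold bm
  split_ifs with h
  · exact ⟨fun _ => h, fun _ => rfl⟩
  · constructor
    · intro e
      cases hw : w y <;> simp [hw] at e
    · intro h'
      exact absurd h' h

theorem tlb_bool {a c d : Bool} (h : a = d ↔ c = d) : a = c := by
  cases a <;> cases c <;> cases d <;> simp_all

theorem st_TLB (hPS2 : ST_PS2) (hCPB : ST_CPB) (hTRB : ST_TRB) (hCYB : ST_CYB)
    (hGB2 : ST_GB2) : ST_TLB := by
  intro V _ G b T z l r w hDF hNB hz hM hRB hp
  have key : ∀ y ∈ T, ∀ y' ∈ T, y' ∈ Far G y → (b y y' = w y ↔ Ins l r y y') := by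
    intro y hy y' hy' hf
    rw [hRB y hy y' hy' hf.1, tlb_bm_iff]
    exact (hGB2 V G T l r w hM).1 y hy y' hy' hf
  have hcompat : ∀ y ∈ T, ∀ y' ∈ T, y' ∈ Far G y →
      ((fun y => b y z = w y) y ↔ Ins l r y y') ∨ ((fun y => b y z = w y) y' ↔ Ins l r y' y) := by
    intro y hy y' hy' hf
    rcases hCPB V G b T z l r w hDF hNB hz hM hRB hp y hy y' hy' hf with h | h
    · left
      show b y z = w y ↔ Ins l r y y'
      rw [h]
      exact key y hy y' hy' hf
    · right
      show b y' z = w y' ↔ Ins l r y' y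
      rw [h]
      exact key y' hy' y hy (tlb_far_symm hf)
  rcases hPS2 V G T l r (fun y => b y z = w y) hM hcompat with h | h | h
  · exact h
  · obtain ⟨y1, h1, y2, h2, y3, h3, a12, a23, a31, ht⟩ := h
    exact (hTRB V G b T z l r w hDF hNB hz hM hRB hp y1 h1 y2 h2 y3 h3 a12 a23 a31 ht).elim
  · obtain ⟨L, hL, h4, hLT, hside, ht⟩ := h
    have hs : ∀ y ∈ L, ∀ y' ∈ L, y' ∈ Far G y → b y z = b y y' := by
      intro y hy y' hy' hf
      exact tlb_bool ((hside y hy y' hy' hf).trans (key y (hLT y hy) y' (hLT y' hy') hf).symm)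
    exact (hCYB V G b T z l r w L hDF hNB hz hM hRB hp hL h4 hLT hs ht).elim

end Pool.Agent.Helper64.DT
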